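import Pool.Agent.Lib_helper89.FL.StmtsMG
import Pool.Agent.Lib_helper58.SapR.Rot
import Pool.Agent.Lib_helper27.HW

/-!
# MGI1: free pieces, caps and polygons without cut are embedded in the pairs of crossing words
without common cut level
-/

set_option autoImplicit false

namespace Pool.Agent.FL.H27

open Finset Pool.Agent.Lib27 Pool.Agent.SapR Pool.Agent.SapR.H58 Pool.Agent.FL
open scoped NNReal ENNReal

/-! ### Sums -/

theorem sum_le (x y : ℝ≥0) {ι : Type} (a : ι → ℕ) (P : ι → Wd × Wd) (h : ∀ t, P t ∈ NC (a t))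
    (hinj : Function.Injective fun t => (a t, P t)) :
    ∑' t, (x : ℝ≥0∞) ^ ((P t).1.length + (P t).2.length) * (y : ℝ≥0∞) ^ a t ≤
      ∑' H : ℕ, (y : ℝ≥0∞) ^ H * gfp x (NC H) := by
  let F : ι → (Σ H : ℕ, NC H) := fun t => ⟨a t, ⟨P t, h t⟩⟩
  have hF : Function.Injective F := by
    intro s t hst
    apply hinj
    have h1 : a s = a t := congrArg Sigma.fst hst
    have h2 : P s = P t := by
      have := congrArg (fun q : (Σ H : ℕ, NC H) => (q.2 : Wd × Wd)) hst
      exact this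
    simp only [h1, h2]
  let g : (Σ H : ℕ, NC H) → ℝ≥0∞ := fun q =>
    (y : ℝ≥0∞) ^ q.1 * (x : ℝ≥0∞) ^ ((q.2 : Wd × Wd).1.length + (q.2 : Wd × Wd).2.length)
  calc ∑' t, (x : ℝ≥0∞) ^ ((P t).1.length + (P t).2.length) * (y : ℝ≥0∞) ^ a t
      = ∑' t, g (F t) := by
        refine tsum_congr fun t => ?_
        rw [mul_comm]
    _ ≤ ∑' q, g q := ENNReal.tsum_comp_le_tsum_of_injective hF g
    _ = ∑' H : ℕ, (y : ℝ≥0∞) ^ H * gfp x (NC H) := by
        rw [ENNReal.tsum_sigma']
        refine tsum_congr fun H => ?_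
        unfold gfp
        rw [← ENNReal.tsum_mul_left]

/-! ### Walks -/

lemma lev_dv_le (d : Fin 4) : lev (dv d) ≤ 1 := by
  fin_cases d <;> simp [lev, dv]

lemma lev_dv_ne (d : Fin 4) : lev (dv d) ≠ 0 := by
  fin_cases d <;> simp [lev, dv]

/-- a walk visits all intermediate levels -/
lemma ivt (k : ℤ) (s : Wd) : ∀ p : ℤ × ℤ, lev p ≤ k → k ≤ lev (ep p s) →
    ∃ v ∈ vt p s, lev v = k := by
  induction s with
  | nil =>
    intro p h1 h2
    exact ⟨p, by simp, le_antisymm h1 h2⟩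
  | cons d s ih =>
    intro p h1 h2
    rcases eq_or_lt_of_le h1 with h | h
    · exact ⟨p, by simp, h⟩
    · have h3 : lev (p + dv d) ≤ k := by
        rw [lev_add]
        have := lev_dv_le d
        omega
      obtain ⟨v, hv, hk⟩ := ih (p + dv d) h3 h2
      exact ⟨v, by simp [hv], hk⟩

/-- every vertex is the end point of a prefix -/
lemma split_at (s : Wd) : ∀ (p v : ℤ × ℤ), v ∈ vt p s → ∃ A B, s = A ++ B ∧ ep p A = v := by
  induction s with
  | nil =>
    intro p v hv
    simp only [vt_nil, List.mem_singleton] at hv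
    exact ⟨[], [], rfl, by simp [hv]⟩
  | cons d s ih =>
    intro p v hv
    rw [vt_cons, List.mem_cons] at hv
    rcases hv with rfl | hv
    · exact ⟨[], d :: s, rfl, rfl⟩
    · obtain ⟨A, B, h1, h2⟩ := ih _ _ hv
      exact ⟨d :: A, B, by rw [h1]; rfl, by rw [ep_cons]; exact h2⟩

/-- every starting point of a step is the end point of a proper prefix -/
lemma split_at' (s : Wd) : ∀ (p v : ℤ × ℤ), v ∈ vs p s →
    ∃ A B, s = A ++ B ∧ ep p A = v ∧ B ≠ [] := by
  induction s with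
  | nil =>
    intro p v hv
    simp at hv
  | cons d s ih =>
    intro p v hv
    rw [vs_cons, List.mem_cons] at hv
    rcases hv with rfl | hv
    · exact ⟨[], d :: s, rfl, rfl, by simp⟩
    · obtain ⟨A, B, h1, h2, h3⟩ := ih _ _ hv
      exact ⟨d :: A, B, by rw [h1]; rfl, by rw [ep_cons]; exact h2, h3⟩

lemma cnt_append (l l' : List (ℤ × ℤ)) (h : ℤ) : cnt (l ++ l') h = cnt l h + cnt l' h := by
  simp [cnt]

lemma cnt_single_ne (p : ℤ × ℤ) (h : ℤ) (hp : lev p ≠ h) : cnt [p] h = 0 := by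
  simp [cnt, hp]

lemma cnt_pos_of_mem {l : List (ℤ × ℤ)} {v : ℤ × ℤ} (hv : v ∈ l) (h : ℤ) (hl : lev v = h) :
    0 < cnt l h := by
  unfold cnt
  rw [List.countP_pos_iff]
  exact ⟨v, hv, by simp [hl]⟩

lemma rv_length (s : Wd) : (rv s).length = s.length := by simp [rv]

lemma rv_inj {s t : Wd} (h : rv s = rv t) : s = t := by
  rw [← rv_rv s, h, rv_rv]

/-- vertices of the reversed word -/
lemma vt_rv0 (B : Wd) (p : ℤ × ℤ) :
    (vt 0 (rv B)).map (· + ep p B) = (vt p B).reverse := by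
  rw [← vt_eq]
  exact vt_rv p B

lemma mem_vt_rv (B : Wd) (p : ℤ × ℤ) (h : lev (ep p B) = 0) {v : ℤ × ℤ} (hv : v ∈ vt 0 (rv B)) :
    ∃ u ∈ vt p B, lev u = lev v := by
  have h1 : v + ep p B ∈ (vt 0 (rv B)).map (· + ep p B) := List.mem_map.2 ⟨v, hv, rfl⟩
  rw [vt_rv0, List.mem_reverse] at h1
  exact ⟨_, h1, by rw [lev_add, h, add_zero]⟩

lemma cnt_rv (B : Wd) (p : ℤ × ℤ) (h : lev (ep p B) = 0) (k : ℤ) :
    cnt (vt 0 (rv B)) k = cnt (vt p B) k := by
  have h1 := cnt_shift (vt 0 (rv B)) (ep p B) k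
  rw [h, sub_zero, vt_rv0] at h1
  rw [← h1]
  exact cnt_perm (List.reverse_perm _) k

lemma nodup_rv (B : Wd) (p : ℤ × ℤ) (h : (vt p B).Nodup) : (vt 0 (rv B)).Nodup := by
  have h1 := vt_rv0 B p
  have h2 : ((vt 0 (rv B)).map (· + ep p B)).Nodup := by
    rw [h1, List.nodup_reverse]
    exact h
  exact h2.of_map _

lemma lev_ep_rv (B : Wd) (p : ℤ × ℤ) (h : lev (ep p B) = 0) : lev (ep 0 (rv B)) = lev p := by
  have h1 := ep_rv p B
  rw [ep_eq (ep p B)] at h1
  have h2 := congrArg lev h1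
  rw [lev_add, h, add_zero] at h2
  exact h2

/-- the second half, reversed, is a crossing word -/
lemma cr_rv (B : Wd) (p : ℤ × ℤ) (H : ℕ) (h : lev (ep p B) = 0) (hp : lev p = H)
    (hn : (vt p B).Nodup) (hl : ∀ v ∈ vt p B, 0 ≤ lev v ∧ lev v ≤ H) : rv B ∈ Cr H := by
  refine ⟨nodup_rv B p hn, ?_, ?_⟩
  · rw [lev_ep_rv B p h, hp]
  · intro v hv
    obtain ⟨u, hu, hlu⟩ := mem_vt_rv B p h hv
    rw [← hlu]
    exact hl u hu

/-- Core lemma: a word which starts and ends at level `0`, cut at a vertex of maximal level. -/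
lemma core (w A B : Wd) (H : ℕ) (hw : w = A ++ B) (he : lev (ep 0 w) = 0)
    (hA : lev (ep 0 A) = H) (hl : ∀ v ∈ vt 0 w, 0 ≤ lev v ∧ lev v ≤ H)
    (hnA : (vt 0 A).Nodup) (hnB : (vt (ep 0 A) B).Nodup)
    (hc : ∀ k : ℤ, 0 < k → k < H → cnt (vt 0 w) k = 2 → False) : (A, rv B) ∈ NC H := by
  have hmA : ∀ v ∈ vt 0 A, v ∈ vt 0 w := by
    intro v hv
    rw [hw, vt_append']
    exact List.mem_append_left _ hv
  have hmB : ∀ v ∈ vt (ep 0 A) B, v ∈ vt 0 w := by
    intro v hv
    rw [hw, vt_append]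
    exact List.mem_append_right _ hv
  have heB : lev (ep (ep 0 A) B) = 0 := by
    rw [← ep_append, ← hw]
    exact he
  refine ⟨⟨hnA, hA, fun v hv => hl v (hmA v hv)⟩,
    cr_rv B (ep 0 A) H heB hA hnB (fun v hv => hl v (hmB v hv)), ?_⟩
  rintro k hk0 hkH ⟨h1, h2⟩
  apply hc k hk0 hkH
  rw [cnt_rv B (ep 0 A) heB] at h2
  rw [hw, vt_append, cnt_append, h2]
  have h3 : cnt (vt 0 A) k = cnt (vs 0 A) k + cnt [ep 0 A] k := by
    unfold vt
    rw [cnt_append]
  rw [cnt_single_ne _ _ (by rw [hA]; omega), add_zero] at h3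
  rw [← h3, h1]

/-! ### Free pieces -/

lemma free_mem (p : Wd × Wd) (hp : FreePiece p.1 p.2) : (p.1, rv p.2) ∈ NC (htn p) := by
  obtain ⟨⟨h1, h2, h3, h4, h5, h6⟩, h7⟩ := hp
  have hH : ((htn p : ℕ) : ℤ) = lev (ep 0 p.1) := by
    unfold htn ht
    omega
  have hq : lev (ep (ep 0 p.1) p.2) = 0 := by
    rw [ep_eq, lev_add, h2]
    ring
  have hvtU : ∀ v ∈ vt 0 p.1, 0 ≤ lev v ∧ lev v ≤ (htn p : ℕ) := by
    intro v hv
    rw [hH]
    unfold vt at hv
    rw [List.mem_append, List.mem_singleton] at hv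
    rcases hv with hv | rfl
    · cases hU : p.1 with
      | nil => rw [hU] at hv; simp at hv
      | cons d s =>
        rw [hU] at hv h5
        rw [vs_cons, List.mem_cons] at hv
        rcases hv with rfl | hv
        · rw [← hU]; rw [lev_zero]; exact ⟨le_refl _, h1.le⟩
        · have := h5 v (by rw [vs_cons]; exact hv)
          exact ⟨this.1.le, this.2.le⟩
    · exact ⟨h1.le, le_refl _⟩
  have hvtD : ∀ v ∈ vt (ep 0 p.1) p.2, 0 ≤ lev v ∧ lev v ≤ (htn p : ℕ) := by
    intro v hv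
    rw [hH]
    rw [vt_eq, List.mem_map] at hv
    obtain ⟨u, hu, rfl⟩ := hv
    rw [lev_add]
    unfold vt at hu
    rw [List.mem_append, List.mem_singleton] at hu
    rcases hu with hu | rfl
    · cases hD : p.2 with
      | nil => rw [hD] at hu; simp at hu
      | cons d s =>
        rw [hD] at hu h6
        rw [vs_cons, List.mem_cons] at hu
        rcases hu with rfl | hu
        · rw [lev_zero]; constructor <;> linarith
        · have := h6 u (by rw [vs_cons]; exact hu)
          rw [← hD, h2] at this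
          constructor <;> linarith
    · rw [h2]; constructor <;> linarith
  refine ⟨⟨h3, hH.symm, hvtU⟩, cr_rv p.2 (ep 0 p.1) (htn p) hq hH.symm ((nodup_vt _ _).2 h4) hvtD,
    ?_⟩
  rintro k hk0 hkH ⟨h8, h9⟩
  rw [hH] at hkH
  rw [cnt_rv p.2 (ep 0 p.1) hq, vt_eq, cnt_shift] at h9
  exact h7 k hk0 hkH ⟨h8, h9⟩

/-! ### Caps -/

lemma vt_lev_nonneg {T : Wd} (hl : ∀ p ∈ (vs 0 T).tail, 0 < lev p) (he : lev (ep 0 T) = 0) :
    ∀ v ∈ vt 0 T, 0 ≤ lev v := by
  intro v hv
  unfold vt at hv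
  rw [List.mem_append, List.mem_singleton] at hv
  rcases hv with hv | rfl
  · cases T with
    | nil => simp at hv
    | cons d s =>
      rw [vs_cons, List.mem_cons] at hv
      rcases hv with rfl | hv
      · simp
      · exact (hl v (by rw [vs_cons]; exact hv)).le
  · exact he.ge

lemma cap_split (T : Wd) (hT : T ∈ Cap) : ∃ A B, T = A ++ B ∧ (A, rv B) ∈ NC (hgt T) := by
  obtain ⟨x, hx, ⟨hne, hep, hnd, hlv⟩, hcut⟩ := hT
  have he : lev (ep 0 T) = 0 := by rw [hep]; simp [lev]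
  have hnn := vt_lev_nonneg hlv he
  have hne' : (vt 0 T).toFinset.Nonempty := ⟨0, by rw [List.mem_toFinset]; exact mem_vt_self 0 T⟩
  obtain ⟨v, hv, hvs⟩ := Finset.exists_mem_eq_sup _ hne' (fun p => (lev p).toNat)
  rw [List.mem_toFinset] at hv
  have hvl : lev v = (hgt T : ℕ) := by
    have h1 := hnn v hv
    have h2 : hgt T = (lev v).toNat := hvs
    omega
  have hle : ∀ u ∈ vt 0 T, lev u ≤ (hgt T : ℕ) := by
    intro u hu
    have h1 : (lev u).toNat ≤ hgt T :=
      Finset.le_sup (f := fun p : ℤ × ℤ => (lev p).toNat) (List.mem_toFinset.2 hu)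
    omega
  obtain ⟨A, B, hAB, hA⟩ := split_at T 0 v hv
  refine ⟨A, B, hAB, ?_⟩
  refine core T A B (hgt T) hAB he (by rw [hA]; exact hvl) (fun u hu => ⟨hnn u hu, hle u hu⟩)
    ?_ ?_ ?_
  · rw [hAB, vt_append'] at hnd
    exact hnd.of_append_left
  · rw [hAB, vt_append] at hnd
    exact hnd.of_append_right
  · intro k hk0 hkH h2
    apply hcut k (by omega)
    refine ⟨h2, ?_, ?_⟩
    · obtain ⟨u, hu, hul⟩ := ivt (k - 1) A 0 (by rw [lev_zero]; omega) (by rw [hA, hvl]; omega)
      refine cnt_pos_of_mem (v := u) ?_ _ hul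
      rw [hAB, vt_append']
      exact List.mem_append_left _ hu
    · obtain ⟨u, hu, hul⟩ := ivt (k + 1) A 0 (by rw [lev_zero]; omega) (by rw [hA, hvl]; omega)
      refine cnt_pos_of_mem (v := u) ?_ _ hul
      rw [hAB, vt_append']
      exact List.mem_append_left _ hu

/-! ### Polygons without cut -/

lemma poly_split (n : ℕ) (hn : 1 ≤ n) (w : Wd) (hw : w ∈ NoCut n) :
    ∃ i ∈ range (2 * n), ∃ A B, w.drop i ++ w.take i = A ++ B ∧ (A, rv B) ∈ NC (spn w) := by
  classical
  unfold NoCut at hw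
  rw [Finset.mem_filter, mem_W] at hw
  obtain ⟨⟨hlen, hS⟩, hcut⟩ := hw
  have hvne : (vs 0 w) ≠ [] := by
    intro h
    have := vs_length 0 w
    rw [h] at this
    simp at this
    omega
  obtain ⟨v0, hv0⟩ := List.exists_mem_of_ne_nil _ hvne
  have hne' : ((vs 0 w).toFinset ×ˢ (vs 0 w).toFinset).Nonempty :=
    ⟨(v0, v0), by simp [hv0]⟩
  obtain ⟨⟨p0, q0⟩, hpq, hsp⟩ := Finset.exists_mem_eq_sup _ hne'
    (fun p : (ℤ × ℤ) × (ℤ × ℤ) => (lev p.1 - lev p.2).toNat)
  have hsp' : spn w = (lev p0 - lev q0).toNat := hsp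
  rw [Finset.mem_product, List.mem_toFinset, List.mem_toFinset] at hpq
  obtain ⟨hp0, hq0⟩ := hpq
  simp only at hp0 hq0
  have hle : ∀ p ∈ vs 0 w, ∀ q ∈ vs 0 w, lev p - lev q ≤ (spn w : ℕ) := by
    intro p hp q hq
    have h1 : (lev p - lev q).toNat ≤ spn w :=
      Finset.le_sup (f := fun p : (ℤ × ℤ) × (ℤ × ℤ) => (lev p.1 - lev p.2).toNat)
        (Finset.mem_product.2 ⟨List.mem_toFinset.2 hp, List.mem_toFinset.2 hq⟩ :
          (p, q) ∈ (vs 0 w).toFinset ×ˢ (vs 0 w).toFinset)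
    omega
  -- the span is at least one
  have hspos : 1 ≤ spn w := by
    cases hw' : w with
    | nil => rw [hw'] at hlen; simp at hlen; omega
    | cons d s =>
      cases s with
      | nil => rw [hw'] at hlen; simp at hlen; omega
      | cons d' s' =>
        rw [← hw']
        have h1 : (0 : ℤ × ℤ) ∈ vs 0 w := by rw [hw']; simp
        have h2 : (0 + dv d : ℤ × ℤ) ∈ vs 0 w := by rw [hw']; simp
        have h3 := hle _ h1 _ h2
        have h4 := hle _ h2 _ h1
        rw [lev_add, lev_zero] at h3 h4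
        have h5 := lev_dv_ne d
        omega
  have hs0 : lev p0 - lev q0 = (spn w : ℕ) := by omega
  obtain ⟨l₁, l₂, h12, hq, hl₂⟩ := split_at' w 0 q0 hq0
  have hlen1 : l₁.length < 2 * n := by
    rw [← hlen, h12, List.length_append]
    have : 0 < l₂.length := List.length_pos_iff.2 hl₂
    omega
  refine ⟨l₁.length, Finset.mem_range.2 hlen1, ?_⟩
  have hd : w.drop l₁.length ++ w.take l₁.length = l₂ ++ l₁ := by
    rw [h12]
    simp
  rw [hd]
  have h0 : ep 0 (l₁ ++ l₂) = 0 := by rw [← h12]; exact hS.1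
  have hS' : SAPw (l₂ ++ l₁) := SAPw_rotate _ _ (by rw [← h12]; exact hS)
  have hperm := perm_rot l₁ l₂ h0
  have hmem : ∀ v, v ∈ vs 0 (l₂ ++ l₁) ↔ v + q0 ∈ vs 0 w := by
    intro v
    rw [hperm.mem_iff, List.mem_map, h12, hq]
    constructor
    · rintro ⟨u, hu, rfl⟩
      have : u + -q0 + q0 = u := by abel
      rwa [this]
    · intro h
      exact ⟨v + q0, h, by abel⟩
  have hlv : ∀ v ∈ vt 0 (l₂ ++ l₁), 0 ≤ lev v ∧ lev v ≤ (spn w : ℕ) := by
    intro v hv
    unfold vt at hv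
    rw [List.mem_append, List.mem_singleton] at hv
    rcases hv with hv | rfl
    · have h1 := (hmem v).1 hv
      have h2 := hle _ hp0 _ h1
      have h3 := hle _ h1 _ hq0
      rw [lev_add] at h2 h3
      constructor <;> omega
    · rw [hS'.1, lev_zero]
      constructor <;> omega
  have hp0' : p0 + -q0 ∈ vs 0 (l₂ ++ l₁) := by
    rw [hmem]
    have : p0 + -q0 + q0 = p0 := by abel
    rwa [this]
  obtain ⟨A, B, hAB, hA, hB⟩ := split_at' _ 0 _ hp0'
  have hAl : lev (ep 0 A) = (spn w : ℕ) := by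
    rw [hA, lev_add, lev_neg]
    omega
  have hAne : A ≠ [] := by
    rintro rfl
    rw [ep_nil, lev_zero] at hAl
    omega
  refine ⟨A, B, hAB, ?_⟩
  have hnd : (vs 0 A ++ vs (ep 0 A) B).Nodup := by
    rw [← vs_append, ← hAB]
    exact hS'.2
  have heB : ep (ep 0 A) B = 0 := by
    rw [← ep_append, ← hAB]
    exact hS'.1
  have h0A : (0 : ℤ × ℤ) ∈ vs 0 A := by
    cases A with
    | nil => exact absurd rfl hAne
    | cons d s => simp
  have hAB' : ep 0 A ∈ vs (ep 0 A) B := by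
    cases B with
    | nil => exact absurd rfl hB
    | cons d s => simp
  refine core (l₂ ++ l₁) A B (spn w) hAB (by rw [hS'.1, lev_zero]) hAl hlv ?_ ?_ ?_
  · unfold vt
    rw [List.nodup_append] at hnd ⊢
    refine ⟨hnd.1, List.nodup_singleton _, ?_⟩
    intro a ha b hb
    rw [List.mem_singleton] at hb
    rw [hb]
    exact hnd.2.2 a ha _ hAB'
  · unfold vt
    rw [heB]
    rw [List.nodup_append] at hnd ⊢
    refine ⟨hnd.2.1, List.nodup_singleton _, ?_⟩
    intro a ha b hb
    rw [List.mem_singleton] at hb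
    rw [hb]
    exact fun h => hnd.2.2 0 h0A a ha h.symm
  · intro k hk0 hkH h2
    apply hcut (k + lev q0)
    have h3 := cut_rot l₁ l₂ h0 k
    rw [hq, ← h12] at h3
    rw [← h3]
    have hvt : ∀ j : ℤ, cnt (vt 0 (l₂ ++ l₁)) j = cnt (vs 0 (l₂ ++ l₁)) j + cnt [(0 : ℤ × ℤ)] j := by
      intro j
      unfold vt
      rw [cnt_append, hS'.1]
    have hmm : ∀ v ∈ vt 0 A, v ∈ vs 0 (l₂ ++ l₁) := by
      intro v hv
      rw [hAB, vs_append, List.mem_append]
      unfold vt at hv
      rw [List.mem_append, List.mem_singleton] at hv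
      rcases hv with hv | rfl
      · exact Or.inl hv
      · exact Or.inr hAB'
    refine ⟨?_, ?_, ?_⟩
    · have := hvt k
      rw [cnt_single_ne _ _ (by rw [lev_zero]; omega), add_zero] at this
      rw [← this]
      exact h2
    · obtain ⟨u, hu, hul⟩ := ivt (k - 1) A 0 (by rw [lev_zero]; omega) (by rw [hAl]; omega)
      exact cnt_pos_of_mem (hmm u hu) _ hul
    · obtain ⟨u, hu, hul⟩ := ivt (k + 1) A 0 (by rw [lev_zero]; omega) (by rw [hAl]; omega)
      exact cnt_pos_of_mem (hmm u hu) _ hul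

/-! ### The theorem -/

theorem mgi1 : MGI1_Stmt := by
  classical
  intro x y
  refine ⟨?_, ?_, ?_⟩
  · have h := sum_le x y (ι := {p : Wd × Wd | FreePiece p.1 p.2}) (fun p => htn (p : Wd × Wd))
      (fun p => ((p : Wd × Wd).1, rv (p : Wd × Wd).2)) (fun p => free_mem _ p.2) (by
        intro p q hpq
        simp only [Prod.mk.injEq] at hpq
        obtain ⟨_, h1, h2⟩ := hpq
        exact Subtype.ext (Prod.ext h1 (rv_inj h2)))
    refine le_trans (le_of_eq ?_) h
    refine tsum_congr fun p => ?_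
    simp only [rv_length]
  · choose A B hAB hNC using fun T : Cap => cap_split (T : Wd) T.2
    have h := sum_le x y (ι := Cap) (fun T => hgt (T : Wd)) (fun T => (A T, rv (B T)))
      (fun T => hNC T) (by
        intro S T hST
        simp only [Prod.mk.injEq] at hST
        obtain ⟨_, h1, h2⟩ := hST
        apply Subtype.ext
        rw [hAB S, hAB T, h1, rv_inj h2])
    refine le_trans (le_of_eq ?_) h
    refine tsum_congr fun T => ?_
    simp only [rv_length]
    rw [← List.length_append, ← hAB]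
  · intro n hn
    have hex := fun w : {w // w ∈ NoCut n} => poly_split n hn (w : Wd) w.2
    choose i hi A B hAB hNC using hex
    have hlen : ∀ w : {w // w ∈ NoCut n}, (A w).length + (B w).length = 2 * n := by
      intro w
      rw [← List.length_append, ← hAB]
      have h1 := w.2
      unfold NoCut at h1
      rw [Finset.mem_filter, mem_W] at h1
      rw [← h1.1.1]
      simp only [List.length_append, List.length_drop, List.length_take]
      have := Finset.mem_range.1 (hi w)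
      omega
    have hfib : ∀ j : ℕ, ∑' w : {w : {w // w ∈ NoCut n} // i w = j},
        (x : ℝ≥0∞) ^ (2 * n) * (y : ℝ≥0∞) ^ spn (w : {w // w ∈ NoCut n}) ≤
        ∑' H : ℕ, (y : ℝ≥0∞) ^ H * gfp x (NC H) := by
      intro j
      have h := sum_le x y (ι := {w : {w // w ∈ NoCut n} // i w = j})
        (fun w => spn ((w : {w // w ∈ NoCut n}) : Wd))
        (fun w => (A w, rv (B w))) (fun w => hNC w) (by
          intro S T hST
          simp only [Prod.mk.injEq] at hST
          obtain ⟨_, h1, h2⟩ := hST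
          apply Subtype.ext
          apply Subtype.ext
          have e1 := hAB S
          have e2 := hAB T
          rw [S.2] at e1
          rw [T.2] at e2
          rw [h1, rv_inj h2, ← e2] at e1
          have hS1 := S.1.2
          have hT1 := T.1.2
          unfold NoCut at hS1 hT1
          rw [Finset.mem_filter, mem_W] at hS1 hT1
          have hd : ((S.1 : Wd).drop j).length = ((T.1 : Wd).drop j).length := by
            rw [List.length_drop, List.length_drop, hS1.1.1, hT1.1.1]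
          obtain ⟨h3, h4⟩ := List.append_inj e1 hd
          rw [← List.take_append_drop j (S.1 : Wd), ← List.take_append_drop j (T.1 : Wd), h3, h4])
      refine le_trans (le_of_eq ?_) h
      refine tsum_congr fun w => ?_
      simp only [rv_length]
      rw [hlen]
    have hsum : ∑ w ∈ NoCut n, (x : ℝ≥0∞) ^ (2 * n) * (y : ℝ≥0∞) ^ spn w =
        ∑ j ∈ range (2 * n), ∑' w : {w : {w // w ∈ NoCut n} // i w = j},
          (x : ℝ≥0∞) ^ (2 * n) * (y : ℝ≥0∞) ^ spn (w : {w // w ∈ NoCut n}) := by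
      rw [← Finset.sum_attach]
      rw [← Finset.sum_fiberwise_of_maps_to (s := (NoCut n).attach) (t := range (2 * n))
        (g := fun w => i w) (fun w _ => hi w)]
      refine Finset.sum_congr rfl fun j _ => ?_
      rw [tsum_fintype]
      refine Finset.sum_subtype _ (fun w => ?_) _
      simp
    rw [hsum]
    calc ∑ j ∈ range (2 * n), ∑' w : {w : {w // w ∈ NoCut n} // i w = j},
          (x : ℝ≥0∞) ^ (2 * n) * (y : ℝ≥0∞) ^ spn (w : {w // w ∈ NoCut n})
        ≤ ∑ _j ∈ range (2 * n), ∑' H : ℕ, (y : ℝ≥0∞) ^ H * gfp x (NC H) :=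
          Finset.sum_le_sum fun j _ => hfib j
      _ = (2 * n : ℕ) * ∑' H : ℕ, (y : ℝ≥0∞) ^ H * gfp x (NC H) := by
          rw [Finset.sum_const, Finset.card_range, nsmul_eq_mul]

end Pool.Agent.FL.H27
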